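import Mathlib

/-!
# Linear actions of elementary abelian `p`-groups, `p` odd

The kernel of a real representation of dimension `d` of `(ℤ/p)^r` has rank at least `r - d / 2`.
-/

set_option autoImplicit false
set_option linter.unusedSectionVars false

open Module

namespace Pool.Agent.X183.PZ

variable {p : ℕ} [hp : Fact p.Prime] {A : Type} [AddCommGroup A] [Module (ZMod p) A] [Fintype A]
  {V : Type} [AddCommGroup V] [Module ℝ V] [FiniteDimensional ℝ V]

/-- the elements of `A` which act trivially on `W` -/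
def TP (Z : A → Module.End ℝ V) (h0 : Z 0 = 1) (hadd : ∀ S T, Z (S + T) = Z S * Z T)
    (W : Submodule ℝ V) : Submodule (ZMod p) A :=
  AddSubgroup.toZModSubmodule p
    { carrier := {S | ∀ w ∈ W, Z S w = w}
      zero_mem' := by
        intro w _
        rw [h0]
        rfl
      add_mem' := by
        intro S T hS hT w hw
        rw [hadd, Module.End.mul_apply, hT w hw, hS w hw]
      neg_mem' := by
        intro S hS w hw
        have h1 : Z (-S) (Z S w) = w := by
          rw [← Module.End.mul_apply, ← hadd, neg_add_cancel, h0]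
          rfl
        rwa [hS w hw] at h1 }

theorem mem_TP {Z : A → Module.End ℝ V} {h0 : Z 0 = 1} {hadd : ∀ S T, Z (S + T) = Z S * Z T}
    {W : Submodule ℝ V} {S : A} : S ∈ TP (p := p) Z h0 hadd W ↔ ∀ w ∈ W, Z S w = w := Iff.rfl

open Classical in
/-- the elements of `C` -/
noncomputable def Cf (C : Submodule (ZMod p) A) : Finset A := Finset.univ.filter fun a => a ∈ C

theorem mem_Cf {C : Submodule (ZMod p) A} {a : A} : a ∈ Cf C ↔ a ∈ C := by
  classical
  simp [Cf]

theorem Cf_pos (C : Submodule (ZMod p) A) : (0 : ℝ) < (Cf C).card := by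
  have : 0 < (Cf C).card := Finset.card_pos.2 ⟨0, mem_Cf.2 C.zero_mem⟩
  exact_mod_cast this

/-- the sum of the operators of `C` -/
noncomputable def Sm (Z : A → Module.End ℝ V) (C : Submodule (ZMod p) A) : Module.End ℝ V :=
  ∑ a ∈ Cf C, Z a

variable {Z : A → Module.End ℝ V}

theorem Sm_left (hadd : ∀ S T, Z (S + T) = Z S * Z T) {C : Submodule (ZMod p) A} {c : A}
    (hc : c ∈ C) : Z c * Sm Z C = Sm Z C := by
  show Z c * (∑ a ∈ Cf C, Z a) = ∑ a ∈ Cf C, Z a
  rw [Finset.mul_sum]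
  refine Finset.sum_bij (fun a _ => c + a) ?_ ?_ ?_ ?_
  · intro a ha
    exact mem_Cf.2 (C.add_mem hc (mem_Cf.1 ha))
  · intro a _ b _ h
    exact add_left_cancel h
  · intro b hb
    exact ⟨b - c, mem_Cf.2 (C.sub_mem (mem_Cf.1 hb) hc), by abel⟩
  · intro a _
    exact (hadd c a).symm

theorem Sm_comm (hadd : ∀ S T, Z (S + T) = Z S * Z T) (C : Submodule (ZMod p) A) (a : A) :
    Z a * Sm Z C = Sm Z C * Z a := by
  show Z a * (∑ a ∈ Cf C, Z a) = (∑ a ∈ Cf C, Z a) * Z a
  rw [Finset.mul_sum, Finset.sum_mul]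
  exact Finset.sum_congr rfl fun b _ => by rw [← hadd, ← hadd, add_comm]

theorem Sm_mul (hadd : ∀ S T, Z (S + T) = Z S * Z T) {C C' : Submodule (ZMod p) A} (h : C ≤ C') :
    Sm Z C * Sm Z C' = ((Cf C).card : ℝ) • Sm Z C' := by
  show (∑ a ∈ Cf C, Z a) * Sm Z C' = _
  rw [Finset.sum_mul, Finset.sum_congr rfl (fun a ha => Sm_left hadd (h (mem_Cf.1 ha))),
    Finset.sum_const, ← Nat.cast_smul_eq_nsmul ℝ]

theorem Sm_mul' (hadd : ∀ S T, Z (S + T) = Z S * Z T) {C C' : Submodule (ZMod p) A} (h : C ≤ C') :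
    Sm Z C' * Sm Z C = ((Cf C).card : ℝ) • Sm Z C' := by
  show Sm Z C' * (∑ a ∈ Cf C, Z a) = _
  rw [Finset.mul_sum, Finset.sum_congr rfl (fun a ha => (Sm_comm hadd C' a).symm.trans
    (Sm_left hadd (h (mem_Cf.1 ha)))), Finset.sum_const, ← Nat.cast_smul_eq_nsmul ℝ]

theorem Sm_mem {C : Submodule (ZMod p) A} {W : Submodule ℝ V} (hW : ∀ a, ∀ w ∈ W, Z a w ∈ W) {w : V}
    (hw : w ∈ W) : Sm Z C w ∈ W := by
  unfold Sm
  rw [LinearMap.sum_apply]
  exact W.sum_mem fun a _ => hW a w hw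

theorem Sm_fix {C : Submodule (ZMod p) A} {w : V} (hw : ∀ c ∈ C, Z c w = w) :
    Sm Z C w = ((Cf C).card : ℝ) • w := by
  unfold Sm
  rw [LinearMap.sum_apply, Finset.sum_congr rfl (fun a ha => hw a (mem_Cf.1 ha)), Finset.sum_const,
    ← Nat.cast_smul_eq_nsmul ℝ]

/-- an identity for the lines in the plane over the field with `p` elements -/
theorem plane (f : ZMod p → ZMod p → V) :
    (∑ i, ∑ j, f j (i * j)) + ∑ l, f 0 l = (p : ℝ) • f 0 0 + ∑ j, ∑ l, f j l := by
  classical
  rw [Finset.sum_comm]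
  have h1 : ∀ j : ZMod p, ∑ i, f j (i * j) = if j = 0 then (p : ℝ) • f 0 0 else ∑ l, f j l := by
    intro j
    split_ifs with h
    · subst h
      simp only [mul_zero]
      rw [Finset.sum_const, Finset.card_univ, ZMod.card, ← Nat.cast_smul_eq_nsmul ℝ]
    · exact Equiv.sum_comp (Equiv.mulRight₀ j h) fun l => f j l
  rw [Finset.sum_congr rfl fun j _ => h1 j]
  have h2 : (∑ l, f 0 l) = ∑ j : ZMod p, if j = 0 then ∑ l, f 0 l else 0 := by
    rw [Finset.sum_ite_eq' Finset.univ (0 : ZMod p) fun _ => ∑ l, f 0 l]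
    simp
  have h3 : (p : ℝ) • f 0 0 = ∑ j : ZMod p, if j = 0 then (p : ℝ) • f 0 0 else 0 := by
    rw [Finset.sum_ite_eq' Finset.univ (0 : ZMod p) fun _ => (p : ℝ) • f 0 0]
    simp
  conv_lhs => rw [h2]
  conv_rhs => rw [h3]
  rw [← Finset.sum_add_distrib, ← Finset.sum_add_distrib]
  refine Finset.sum_congr rfl fun j _ => ?_
  by_cases h : j = 0
  · subst h
    simp
  · simp [h]

/-- sums over a line -/
theorem line_shift (hadd : ∀ S T, Z (S + T) = Z S * Z T) (g : A) (u : V) :
    Z g (∑ j : ZMod p, Z (j • g) u) = ∑ j : ZMod p, Z (j • g) u := by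
  rw [map_sum]
  rw [← Equiv.sum_comp (Equiv.addRight (1 : ZMod p)) fun j : ZMod p => Z (j • g) u]
  refine Finset.sum_congr rfl fun j _ => ?_
  rw [← Module.End.mul_apply, ← hadd]
  congr 2
  show g + j • g = (j + 1) • g
  rw [add_smul, one_smul, add_comm]

theorem fix_smul (h0 : Z 0 = 1) (hadd : ∀ S T, Z (S + T) = Z S * Z T) {g : A} {w : V}
    (h : Z g w = w) (j : ZMod p) : Z (j • g) w = w := by
  have h1 : g ∈ TP (p := p) Z h0 hadd (Submodule.span ℝ {w}) := by
    rw [mem_TP]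
    intro v hv
    obtain ⟨r, rfl⟩ := Submodule.mem_span_singleton.1 hv
    rw [map_smul, h]
  have h2 := (TP (p := p) Z h0 hadd (Submodule.span ℝ {w})).smul_mem j h1
  exact mem_TP.1 h2 w (Submodule.mem_span_singleton_self w)

theorem fix_sup (h0 : Z 0 = 1) (hadd : ∀ S T, Z (S + T) = Z S * Z T) {B : Submodule (ZMod p) A}
    {g : A} {w : V} (hB : ∀ b ∈ B, Z b w = w) (hg : Z g w = w) :
    ∀ c ∈ B ⊔ Submodule.span (ZMod p) {g}, Z c w = w := by
  intro c hc
  obtain ⟨b, hb, s, hs, rfl⟩ := Submodule.mem_sup.1 hc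
  obtain ⟨j, rfl⟩ := Submodule.mem_span_singleton.1 hs
  rw [hadd, Module.End.mul_apply, fix_smul h0 hadd hg, hB b hb]

/-- **Codimension of the kernel.** -/
theorem codim_odd (hp2 : p ≠ 2) (h0 : Z 0 = 1) (hadd : ∀ S T, Z (S + T) = Z S * Z T) :
    ∀ (m : ℕ) (W : Submodule ℝ V), finrank ℝ W ≤ m → (∀ a, ∀ w ∈ W, Z a w ∈ W) →
      ∃ c : ℕ, finrank (ZMod p) A ≤ finrank (ZMod p) (TP (p := p) Z h0 hadd W) + c ∧
        2 * c ≤ finrank ℝ W := by
  classical
  have hfd : FiniteDimensional (ZMod p) A := Module.Finite.of_finite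
  intro m
  induction m using Nat.strong_induction_on with
  | _ m ih =>
  intro W hWm hW
  by_cases htriv : ∀ a, ∀ w ∈ W, Z a w = w
  · refine ⟨0, ?_, by simp⟩
    have h1 : TP (p := p) Z h0 hadd W = ⊤ := by
      rw [eq_top_iff]
      intro a _
      exact mem_TP.2 (htriv a)
    rw [h1, finrank_top]
    simp
  push Not at htriv
  obtain ⟨a0, w0, hw0, hne0⟩ := htriv
  -- a maximal subspace with additional fixed vectors
  set PP : Set (Submodule (ZMod p) A) := {B | ∃ w ∈ W, (∀ b ∈ B, Z b w = w) ∧ ∃ a, Z a w ≠ w} with hPP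
  obtain ⟨B, ⟨w, hw, hwB, a1, ha1⟩, hmax⟩ := set_has_maximal_iff_noetherian.2
    (inferInstance : IsNoetherian (ZMod p) A) PP ⟨⊥, w0, hw0, by
      intro b hb
      rw [(Submodule.mem_bot _).1 hb, h0]
      rfl, a0, hne0⟩
  have hfull : ∀ g, g ∉ B → ∀ v ∈ W, (∀ b ∈ B, Z b v = v) → Z g v = v → ∀ a, Z a v = v := by
    intro g hg v hv hvB hvg
    by_contra hcon
    push Not at hcon
    have h1 : B < B ⊔ Submodule.span (ZMod p) {g} := by
      refine lt_of_le_of_ne le_sup_left fun h => hg ?_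
      rw [h]
      exact Submodule.mem_sup_right (Submodule.mem_span_singleton_self g)
    exact hmax _ ⟨v, hv, fix_sup h0 hadd hvB hvg, hcon⟩ h1
  set nA : ℝ := ((Cf (⊤ : Submodule (ZMod p) A)).card : ℝ) with hnA
  set nB : ℝ := ((Cf B).card : ℝ) with hnB
  have hnA0 : 0 < nA := Cf_pos _
  have hnB0 : 0 < nB := Cf_pos _
  set u : V := nA • w - Sm Z (⊤ : Submodule (ZMod p) A) w with hu
  have huW : u ∈ W := W.sub_mem (W.smul_mem _ hw) (Sm_mem hW hw)
  have hfixA : ∀ a v, Z a (Sm Z (⊤ : Submodule (ZMod p) A) v) = Sm Z (⊤ : Submodule (ZMod p) A) v := by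
    intro a v
    rw [← Module.End.mul_apply, Sm_left hadd (Submodule.mem_top)]
  have huB : ∀ b ∈ B, Z b u = u := by
    intro b hb
    rw [hu, map_sub, map_smul, hwB b hb, hfixA]
  have huA : Sm Z (⊤ : Submodule (ZMod p) A) u = 0 := by
    rw [hu, map_sub, map_smul, Sm_fix (w := Sm Z (⊤ : Submodule (ZMod p) A) w) (fun c _ => hfixA c w), sub_self]
  have hu0 : u ≠ 0 := by
    intro h
    apply ha1
    have h1 : nA • w = Sm Z (⊤ : Submodule (ZMod p) A) w := sub_eq_zero.1 h
    have h2 : nA • Z a1 w = nA • w := by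
      rw [← map_smul, h1, hfixA]
    exact smul_right_injective V hnA0.ne' h2
  -- `B` has codimension one
  have hline : ∀ g, g ∉ B → ∑ j : ZMod p, Z (j • g) u = 0 := by
    intro g hg
    set v := ∑ j : ZMod p, Z (j • g) u with hv
    have hvW : v ∈ W := W.sum_mem fun j _ => hW _ u huW
    have hvB : ∀ b ∈ B, Z b v = v := by
      intro b hb
      rw [hv, map_sum]
      refine Finset.sum_congr rfl fun j _ => ?_
      rw [← Module.End.mul_apply, ← hadd, add_comm, hadd, Module.End.mul_apply, huB b hb]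
    have h1 := hfull g hg v hvW hvB (line_shift hadd g u)
    have h2 : Sm Z (⊤ : Submodule (ZMod p) A) v = 0 := by
      rw [hv, map_sum]
      refine Finset.sum_eq_zero fun j _ => ?_
      rw [← Module.End.mul_apply, ← Sm_comm hadd, Module.End.mul_apply, huA, map_zero]
    rw [Sm_fix (fun c _ => h1 c)] at h2
    exact (smul_eq_zero.1 h2).resolve_left hnA0.ne'
  have ha1B : a1 ∉ B := fun h => ha1 (hwB a1 h)
  have hcodim : ∀ b, b ∈ B ⊔ Submodule.span (ZMod p) {a1} := by
    intro b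
    by_contra hb
    have hbB : b ∉ B := fun h => hb (Submodule.mem_sup_left h)
    have hg : ∀ i : ZMod p, a1 + i • b ∉ B := by
      intro i hi
      by_cases h : i = 0
      · rw [h, zero_smul, add_zero] at hi
        exact ha1B hi
      · apply hb
        have h1 : b = i⁻¹ • (a1 + i • b) + (-i⁻¹) • a1 := by
          rw [smul_add, smul_smul, inv_mul_cancel₀ h, one_smul, neg_smul]
          abel
        rw [h1]
        exact Submodule.add_mem_sup (B.smul_mem _ hi)
          (Submodule.smul_mem _ _ (Submodule.mem_span_singleton_self a1))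
    have h1 := plane (p := p) fun j l => Z (j • a1 + l • b) u
    have h2 : ∀ i : ZMod p, ∑ j : ZMod p, Z (j • a1 + (i * j) • b) u = 0 := by
      intro i
      rw [← hline _ (hg i)]
      refine Finset.sum_congr rfl fun j _ => ?_
      rw [smul_add, smul_smul, mul_comm i j]
    have h3 : ∑ l : ZMod p, Z ((0 : ZMod p) • a1 + l • b) u = 0 := by
      rw [← hline b hbB]
      refine Finset.sum_congr rfl fun j _ => ?_
      rw [zero_smul, zero_add]
    have h4 : ∑ j : ZMod p, ∑ l : ZMod p, Z (j • a1 + l • b) u = 0 := by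
      refine Finset.sum_eq_zero fun j _ => ?_
      have h5 : ∑ l : ZMod p, Z (j • a1 + l • b) u = Z (j • a1) (∑ l : ZMod p, Z (l • b) u) := by
        rw [map_sum]
        refine Finset.sum_congr rfl fun l _ => ?_
        rw [hadd, Module.End.mul_apply]
      rw [h5, hline b hbB, map_zero]
    rw [Finset.sum_eq_zero fun i _ => h2 i, h3, h4, zero_smul, zero_smul, add_zero, add_zero,
      add_zero, h0] at h1
    have hp0 : (p : ℝ) ≠ 0 := by exact_mod_cast hp.out.ne_zero
    exact hu0 ((smul_eq_zero.1 h1.symm).resolve_left hp0)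
  have hrk : finrank (ZMod p) A ≤ finrank (ZMod p) B + 1 := by
    have h1 : (⊤ : Submodule (ZMod p) A) ≤ B ⊔ Submodule.span (ZMod p) {a1} := fun b _ => hcodim b
    have h2 := Submodule.finrank_mono h1
    have h3 := Submodule.finrank_add_le_finrank_add_finrank B (Submodule.span (ZMod p) {a1})
    have h4 : finrank (ZMod p) (Submodule.span (ZMod p) {a1}) ≤ 1 := by
      have h5 := finrank_span_le_card (R := ZMod p) ({a1} : Set A)
      simpa using h5
    rw [finrank_top] at h2
    omega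
  -- the splitting
  set T : Module.End ℝ V := nA • Sm Z B - nB • Sm Z (⊤ : Submodule (ZMod p) A) with hT
  have hTT : T * T = (nA * nB) • T := by
    have e1 := Sm_mul hadd (le_refl B)
    have e2 := Sm_mul hadd (le_top (a := B))
    have e3 := Sm_mul' hadd (le_top (a := B))
    have e4 := Sm_mul hadd (le_refl (⊤ : Submodule (ZMod p) A))
    rw [hT, sub_mul, mul_sub, mul_sub]
    simp only [smul_mul_assoc, mul_smul_comm, e1, e2, e3, e4]
    rw [← hnA, ← hnB]
    module
  have hTZ : ∀ a, Z a * T = T * Z a := by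
    intro a
    rw [hT, mul_sub, sub_mul, mul_smul_comm, mul_smul_comm, smul_mul_assoc, smul_mul_assoc,
      Sm_comm hadd, Sm_comm hadd]
  have hTB : ∀ b ∈ B, Z b * T = T := by
    intro b hb
    rw [hT, mul_sub, mul_smul_comm, mul_smul_comm, Sm_left hadd hb, Sm_left hadd Submodule.mem_top]
  have hTW : ∀ v ∈ W, T v ∈ W := by
    intro v hv
    rw [hT]
    exact W.sub_mem (W.smul_mem _ (Sm_mem hW hv)) (W.smul_mem _ (Sm_mem hW hv))
  have hr0 : nA * nB ≠ 0 := (mul_pos hnA0 hnB0).ne'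
  set W1 : Submodule ℝ V := W ⊓ LinearMap.ker (T - (nA * nB) • (1 : Module.End ℝ V)) with hW1
  set W2 : Submodule ℝ V := W ⊓ LinearMap.ker T with hW2
  have m1 : ∀ v, v ∈ W1 ↔ v ∈ W ∧ T v = (nA * nB) • v := by
    intro v
    rw [hW1, Submodule.mem_inf, LinearMap.mem_ker, LinearMap.sub_apply, sub_eq_zero]
    rfl
  have m2 : ∀ v, v ∈ W2 ↔ v ∈ W ∧ T v = 0 := fun v => Iff.rfl
  have hinf : W1 ⊓ W2 = ⊥ := by
    rw [eq_bot_iff]
    rintro v ⟨h1, h2⟩
    have k1 := ((m1 v).1 h1).2
    rw [((m2 v).1 h2).2] at k1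
    exact (smul_eq_zero.1 k1.symm).resolve_left hr0
  have hsup : W1 ⊔ W2 = W := by
    apply le_antisymm (sup_le inf_le_left inf_le_left)
    intro v hv
    have e : v = (nA * nB)⁻¹ • T v + (v - (nA * nB)⁻¹ • T v) := by abel
    rw [e]
    refine Submodule.add_mem_sup ?_ ?_
    · refine (m1 _).2 ⟨W.smul_mem _ (hTW v hv), ?_⟩
      rw [map_smul, ← Module.End.mul_apply, hTT, LinearMap.smul_apply, smul_comm]
    · refine (m2 _).2 ⟨W.sub_mem hv (W.smul_mem _ (hTW v hv)), ?_⟩
      rw [map_sub, map_smul, ← Module.End.mul_apply, hTT, LinearMap.smul_apply, smul_smul,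
        inv_mul_cancel₀ hr0, one_smul, sub_self]
  have hfr : finrank ℝ W1 + finrank ℝ W2 = finrank ℝ W := by
    have h1 := Submodule.finrank_sup_add_finrank_inf_eq W1 W2
    rw [hsup, hinf, finrank_bot, add_zero] at h1
    exact h1.symm
  have hu1 : u ∈ W1 := by
    refine (m1 u).2 ⟨huW, ?_⟩
    rw [hT, LinearMap.sub_apply, LinearMap.smul_apply, LinearMap.smul_apply, huA, smul_zero,
      sub_zero, Sm_fix huB, ← hnB, smul_smul]
  have hinv1 : ∀ a, ∀ v ∈ W1, Z a v ∈ W1 := by
    intro a v hv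
    have k := (m1 v).1 hv
    refine (m1 _).2 ⟨hW a v k.1, ?_⟩
    rw [← Module.End.mul_apply, ← hTZ, Module.End.mul_apply, k.2, map_smul]
  have hinv2 : ∀ a, ∀ v ∈ W2, Z a v ∈ W2 := by
    intro a v hv
    have k := (m2 v).1 hv
    refine (m2 _).2 ⟨hW a v k.1, ?_⟩
    rw [← Module.End.mul_apply, ← hTZ, Module.End.mul_apply, k.2, map_zero]
  have hB1 : ∀ b ∈ B, ∀ v ∈ W1, Z b v = v := by
    intro b hb v hv
    have k := ((m1 v).1 hv).2
    have h1 : (nA * nB) • Z b v = (nA * nB) • v := by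
      rw [← map_smul, ← k, ← Module.End.mul_apply, hTB b hb]
    exact smul_right_injective V hr0 h1
  have htwo : 2 ≤ finrank ℝ W1 := by
    by_contra hlt
    push Not at hlt
    have hpos : 0 < finrank ℝ W1 := by
      rw [Nat.pos_iff_ne_zero]
      intro h
      have h1 := Submodule.finrank_eq_zero.1 h
      rw [h1, Submodule.mem_bot] at hu1
      exact hu0 hu1
    have hone : finrank ℝ W1 = 1 := by omega
    have hu1' : (⟨u, hu1⟩ : W1) ≠ 0 := fun h => hu0 (congrArg Subtype.val h)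
    obtain ⟨r, hr⟩ := (finrank_eq_one_iff_of_nonzero' (⟨u, hu1⟩ : W1) hu1').1 hone
      ⟨Z a1 u, hinv1 a1 u hu1⟩
    have hr : r • u = Z a1 u := congrArg Subtype.val hr
    have hpw : ∀ j : ℕ, Z (j • a1) u = r ^ j • u := by
      intro j
      induction j with
      | zero => rw [zero_smul, h0, pow_zero, one_smul]; rfl
      | succ j ih =>
        rw [succ_nsmul', hadd, Module.End.mul_apply, ih, map_smul, ← hr, smul_smul, pow_succ]
    have h1 := hpw p
    have h2 : p • a1 = 0 := by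
      have h3 : ((p : ZMod p)) • a1 = p • a1 := Nat.cast_smul_eq_nsmul (ZMod p) p a1
      rw [← h3, ZMod.natCast_self, zero_smul]
    rw [h2, h0] at h1
    have h3 : r ^ p = 1 := by
      have h4 : (1 - r ^ p) • u = 0 := by
        rw [sub_smul, one_smul, ← h1]
        exact sub_self u
      have h5 := (smul_eq_zero.1 h4).resolve_right hu0
      linarith
    have hodd : Odd p := hp.out.odd_of_ne_two hp2
    have h4 : r = 1 := by
      apply hodd.strictMono_pow.injective
      show r ^ p = 1 ^ p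
      rw [h3, one_pow]
    rw [h4, one_smul] at hr
    have h5 : ∀ a, Z a u = u := fun a => fix_sup h0 hadd huB hr.symm a (hcodim a)
    rw [Sm_fix (fun c _ => h5 c)] at huA
    exact hu0 ((smul_eq_zero.1 huA).resolve_left hnA0.ne')
  obtain ⟨c, hc1, hc2⟩ := ih (finrank ℝ W2) (by omega) W2 le_rfl hinv2
  refine ⟨c + 1, ?_, by omega⟩
  have hle : TP (p := p) Z h0 hadd W2 ⊓ B ≤ TP (p := p) Z h0 hadd W := by
    rintro a ⟨ha2, haB⟩
    rw [mem_TP]
    intro v hv
    rw [← hsup] at hv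
    obtain ⟨x, hx, y, hy, rfl⟩ := Submodule.mem_sup.1 hv
    rw [map_add, hB1 a haB x hx, mem_TP.1 ha2 y hy]
  have h3 := Submodule.finrank_mono hle
  have h4 := Submodule.finrank_sup_add_finrank_inf_eq (TP (p := p) Z h0 hadd W2) B
  have h5 := Submodule.finrank_le (TP (p := p) Z h0 hadd W2 ⊔ B)
  omega

end Pool.Agent.X183.PZ
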