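import Pool.Agent.X183.PZ.Codim
import Pool.Agent.X183.NZ.Orb

/-!
# Elementary abelian `p`-groups acting with small orbits
-/

set_option autoImplicit false

open scoped Manifold ContDiff Topology
open Module

namespace Pool.Agent.X183.PZ

open Pool.Agent.X183.ZM Pool.Agent.X183.NZ

/-- Every finite `p`-subgroup of `D` has an orbit with at most `p ^ k` points. -/
def SmallP (p k : ℕ) {M : Type} (D : Subgroup (Equiv.Perm M)) : Prop :=
  ∀ Q : Subgroup (Equiv.Perm M), Q ≤ D → Finite Q → IsPGroup p Q →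
    ∃ x, {y | ∃ g ∈ Q, g x = y}.ncard ≤ p ^ k

theorem exists_smallP {p k : ℕ} {M : Type} {D : Subgroup (Equiv.Perm M)} (hD : SmallP p k D)
    {G : Type} [Group G] [Finite G] (hp : IsPGroup p G) (β : G →* Equiv.Perm M)
    (hβ : ∀ g, β g ∈ D) : ∃ x, Finite (Orb β x) ∧ Nat.card (Orb β x) ≤ p ^ k := by
  obtain ⟨x, hx⟩ := hD β.range (by rintro _ ⟨g, rfl⟩; exact hβ g)
    (Finite.of_surjective _ β.rangeRestrict_surjective)
    (hp.of_surjective _ β.rangeRestrict_surjective)
  have e : {y | ∃ g ∈ β.range, g x = y} = Orb β x := by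
    ext y
    constructor
    · rintro ⟨_, ⟨g, rfl⟩, h⟩
      exact ⟨g, h⟩
    · rintro ⟨g, h⟩
      exact ⟨_, ⟨g, rfl⟩, h⟩
  rw [e] at hx
  refine ⟨x, Set.finite_coe_iff.2 (Set.finite_range _), ?_⟩
  rw [Nat.card_coe_set_eq]
  exact hx

variable {p k : ℕ} [hp : Fact p.Prime] {A : Type} [AddCommGroup A] [Module (ZMod p) A] [Fintype A]
  {d : ℕ} {M : Type} [TopologicalSpace M]
  [T2Space M] [ConnectedSpace M] [ChartedSpace (EuclideanSpace ℝ (Fin d)) M]

/-- **The kernel of an action with small orbits.** -/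
theorem key (hp2 : p ≠ 2) (β : A → Equiv.Perm M) (hβ0 : β 0 = 1)
    (hβa : ∀ a b, β (a + b) = β a * β b) (hβs : ∀ a, ContMDiff (𝓡 d) (𝓡 d) 1 (β a))
    {D : Subgroup (Equiv.Perm M)} (hD : SmallP p k D) (hβD : ∀ a, β a ∈ D) :
    ∃ (N : Submodule (ZMod p) A) (c : ℕ), (∀ a ∈ N, β a = 1) ∧
      finrank (ZMod p) A ≤ finrank (ZMod p) N + k + c ∧ 2 * c ≤ d := by
  classical
  have hfd : FiniteDimensional (ZMod p) A := Module.Finite.of_finite
  have hpa : ∀ a : A, p • a = 0 := by
    intro a
    have h3 : ((p : ZMod p)) • a = p • a := Nat.cast_smul_eq_nsmul (ZMod p) p a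
    rw [← h3, ZMod.natCast_self, zero_smul]
  set b : Multiplicative A →* Equiv.Perm M :=
    { toFun := fun g => β g.toAdd
      map_one' := hβ0
      map_mul' := fun g h => hβa _ _ } with hb
  have hG : IsPGroup p (Multiplicative A) := by
    intro g
    refine ⟨1, ?_⟩
    rw [pow_one]
    exact hpa g.toAdd
  have hfinG : Finite (Multiplicative A) := Finite.of_equiv A Multiplicative.ofAdd
  obtain ⟨x, hfin, hcard⟩ := exists_smallP hD hG b fun g => hβD _
  obtain ⟨L, hL⟩ := lin_st b (fun g => hβs _) x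
  set S0 : AddSubgroup A :=
    { carrier := {a | β a x = x}
      zero_mem' := by
        show β 0 x = x
        rw [hβ0]; rfl
      add_mem' := by
        intro a c ha hc
        show β (a + c) x = x
        rw [hβa, Equiv.Perm.mul_apply, show β c x = x from hc, show β a x = x from ha]
      neg_mem' := by
        intro a ha
        have h1 : β (-a) (β a x) = x := by
          rw [← Equiv.Perm.mul_apply, ← hβa, neg_add_cancel, hβ0]; rfl
        show β (-a) x = x
        rwa [show β a x = x from ha] at h1 } with hS0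
  set A' : Submodule (ZMod p) A := AddSubgroup.toZModSubmodule p S0 with hA'
  have hA'm : ∀ a, a ∈ A' ↔ β a x = x := fun a => Iff.rfl
  letI : Fintype A' := Fintype.ofFinite _
  have hSt : ∀ a : A', Multiplicative.ofAdd (a : A) ∈ St b x := fun a => (hA'm _).1 a.2
  set Z : A' → Module.End ℝ (EuclideanSpace ℝ (Fin d)) :=
    fun a => L ⟨Multiplicative.ofAdd (a : A), hSt a⟩ with hZ
  have h0 : Z 0 = 1 := by
    have e : (⟨Multiplicative.ofAdd ((0 : A') : A), hSt 0⟩ : St b x) = 1 := Subtype.ext rfl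
    simp only [hZ]
    rw [e, map_one]
  have hadd : ∀ S T, Z (S + T) = Z S * Z T := by
    intro S T
    simp only [hZ]
    rw [← map_mul]
    congr 1
  obtain ⟨c, hc1, hc2⟩ := codim_odd (p := p) hp2 h0 hadd (finrank ℝ (EuclideanSpace ℝ (Fin d))) ⊤
    (by simp) (fun _ _ _ => Submodule.mem_top)
  rw [finrank_top, finrank_euclideanSpace_fin] at hc2
  -- the index of the stabiliser
  have hidx : finrank (ZMod p) A ≤ finrank (ZMod p) A' + k := by
    set o : A → Orb b x := fun a => ⟨β a x, ⟨Multiplicative.ofAdd a, rfl⟩⟩ with ho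
    set rep : Orb b x → A := fun y => if h : ∃ a, o a = y then h.choose else 0 with hrep
    have hor : ∀ a, o (rep (o a)) = o a := by
      intro a
      have hex : ∃ T, o T = o a := ⟨a, rfl⟩
      have : rep (o a) = hex.choose := dif_pos hex
      rw [this]
      exact hex.choose_spec
    have hmem : ∀ a, -rep (o a) + a ∈ A' := by
      intro a
      have h1 : β a x = β (rep (o a)) x := (congrArg Subtype.val (hor a)).symm
      rw [hA'm, hβa, Equiv.Perm.mul_apply, h1, ← Equiv.Perm.mul_apply, ← hβa, neg_add_cancel, hβ0]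
      rfl
    have hinj : Function.Injective fun a : A =>
        ((o a, ⟨-rep (o a) + a, hmem a⟩) : Orb b x × A') := by
      intro a a' h
      simp only [Prod.mk.injEq, Subtype.mk.injEq] at h
      rw [h.1] at h
      exact add_left_cancel h.2
    have h1 := Nat.card_le_card_of_injective _ hinj
    rw [Nat.card_prod, Module.natCard_eq_pow_finrank (K := ZMod p) (V := A'),
      Module.natCard_eq_pow_finrank (K := ZMod p) (V := A), Nat.card_zmod] at h1
    have h2 : p ^ finrank (ZMod p) A ≤ p ^ (finrank (ZMod p) A' + k) := by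
      refine h1.trans ?_
      rw [pow_add, mul_comm]
      exact Nat.mul_le_mul_left _ hcard
    exact (Nat.pow_le_pow_iff_right hp.out.one_lt).1 h2
  refine ⟨(TP (p := p) Z h0 hadd ⊤).map A'.subtype, c, ?_, ?_, hc2⟩
  · intro a ha
    obtain ⟨a', ha', rfl⟩ := Submodule.mem_map.1 ha
    have h6 : Z a' = 1 := LinearMap.ext fun w => mem_TP.1 ha' w Submodule.mem_top
    exact hL _ h6
  · have hTTf : finrank (ZMod p) ((TP (p := p) Z h0 hadd ⊤).map A'.subtype) =
        finrank (ZMod p) (TP (p := p) Z h0 hadd ⊤) :=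
      (LinearEquiv.finrank_eq (Submodule.equivMapOfInjective A'.subtype
        (Submodule.injective_subtype _) _)).symm
    rw [hTTf]
    omega

end Pool.Agent.X183.PZ
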