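import Pool.Agent.X183.NZ.Whd

/-!
# Rows
-/

set_option autoImplicit false

namespace Pool.Agent.X183.PZ

open Pool.Agent.X183.ZM Pool.Agent.X183.NZ

section ring

variable {n : ℕ} {R : Type} [Ring R]

/-- the matrix with the row `v` (without the entry at `q`) at the place `q` -/
def rm (q : Fin n) (v : Fin n → R) : Matrix (Fin n) (Fin n) R :=
  Matrix.of fun i j => if i = q ∧ j ≠ q then v j else 0

theorem rm_add (q : Fin n) (v w : Fin n → R) : rm q (v + w) = rm q v + rm q w := by
  ext i j
  simp only [rm, Matrix.of_apply, Matrix.add_apply, Pi.add_apply]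
  split_ifs <;> simp

theorem rm_zero (q : Fin n) : rm q (0 : Fin n → R) = 0 := by
  ext i j
  simp [rm]

theorem rm_mul (q : Fin n) (v w : Fin n → R) : rm q v * rm q w = 0 := by
  ext i j
  rw [Matrix.mul_apply]
  refine Finset.sum_eq_zero fun l _ => ?_
  simp only [rm, Matrix.of_apply]
  by_cases h : l = q
  · subst h
    simp
  · simp [h]

/-- the unipotent matrix with the row `v` at the place `q` -/
def Rw (q : Fin n) (v : Fin n → R) : (Matrix (Fin n) (Fin n) R)ˣ where
  val := 1 + rm q v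
  inv := 1 + rm q (-v)
  val_inv := by
    rw [mul_add, add_mul, add_mul, rm_mul, mul_one, mul_one, one_mul, add_zero, add_assoc,
      ← rm_add, add_neg_cancel, rm_zero, add_zero]
  inv_val := by
    rw [mul_add, add_mul, add_mul, rm_mul, mul_one, mul_one, one_mul, add_zero, add_assoc,
      ← rm_add, neg_add_cancel, rm_zero, add_zero]

theorem Rw_val (q : Fin n) (v : Fin n → R) :
    (Rw q v : Matrix (Fin n) (Fin n) R) = 1 + rm q v := rfl

theorem Rw_add (q : Fin n) (v w : Fin n → R) : Rw q (v + w) = Rw q v * Rw q w := by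
  apply Units.ext
  rw [Units.val_mul, Rw_val, Rw_val, Rw_val, rm_add, mul_add, add_mul, add_mul, rm_mul]
  simp only [mul_one, one_mul, add_zero]
  abel

theorem Rw_zero (q : Fin n) : Rw q (0 : Fin n → R) = 1 := by
  apply Units.ext
  rw [Rw_val, rm_zero, add_zero]
  rfl

theorem Rw_single_self (q : Fin n) (x : R) : Rw q (Pi.single q x) = 1 := by
  apply Units.ext
  rw [Rw_val]
  have : rm q (Pi.single q x) = 0 := by
    ext i j
    simp only [rm, Matrix.of_apply, Matrix.zero_apply]
    split_ifs with h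
    · exact Pi.single_eq_of_ne h.2 _
    · rfl
  rw [this, add_zero]
  rfl

theorem Rw_single {q j : Fin n} (h : q ≠ j) (x : R) : Rw q (Pi.single j x) = El q j h x := by
  apply Units.ext
  rw [Rw_val, El_val]
  congr 1
  ext i l
  simp only [rm, Matrix.of_apply, Matrix.single_apply]
  by_cases hl : l = j
  · subst hl
    by_cases hi : i = q
    · subst hi
      simp [h.symm]
    · simp [hi, Ne.symm hi]
  · simp [hl, Ne.symm hl]

/-- an induction principle for rows -/
theorem Rw_induct {G : Type*} [Group G] {H : Subgroup G} {q : Fin n}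
    (φ : (Fin n → R) → G) (h0 : φ 0 = 1) (hadd : ∀ v w, φ (v + w) = φ v * φ w)
    (v : Fin n → R) (hs : ∀ j, φ (Pi.single j (v j)) ∈ H) : φ v ∈ H := by
  classical
  have key : ∀ s : Finset (Fin n), φ (∑ j ∈ s, Pi.single j (v j)) ∈ H := by
    intro s
    induction s using Finset.induction_on with
    | empty =>
      rw [Finset.sum_empty, h0]
      exact H.one_mem
    | insert j s hj ih =>
      rw [Finset.sum_insert hj, hadd]
      exact H.mul_mem (hs j) ih
  have h1 := key Finset.univ
  rwa [Finset.univ_sum_single] at h1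

theorem Rw_mem (q : Fin n) (v : Fin n → R) : Rw q v ∈ EG n R := by
  refine Rw_induct (q := q) (Rw q) (Rw_zero q) (Rw_add q) v fun j => ?_
  by_cases h : q = j
  · subst h
    rw [Rw_single_self]
    exact Subgroup.one_mem _
  · rw [Rw_single h]
    exact El_EG _ _ _ _

theorem Rw_El (q : Fin n) (v : Fin n → R) {j k : Fin n} (hjk : j ≠ k) (hj : q ≠ j) (hk : q ≠ k)
    (x : R) : Rw q v * El j k hjk x = El q k hk (v j * x) * (El j k hjk x * Rw q v) := by
  apply Units.ext
  simp only [Units.val_mul, Rw_val, El_val]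
  have e1 : rm q v * Matrix.single j k x = Matrix.single q k (v j * x) := by
    ext a b
    rw [Matrix.mul_apply]
    simp only [rm, Matrix.of_apply, Matrix.single_apply]
    rw [Finset.sum_eq_single j]
    · by_cases ha : a = q
      · subst ha
        by_cases hb : b = k
        · subst hb
          simp [hj.symm]
        · simp [Ne.symm hb]
      · simp [ha, Ne.symm ha]
    · intro l _ hl
      simp [Ne.symm hl]
    · intro h
      exact absurd (Finset.mem_univ _) h
  have e2 : Matrix.single j k x * rm q v = 0 := by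
    ext a b
    rw [Matrix.mul_apply]
    refine Finset.sum_eq_zero fun l _ => ?_
    simp only [rm, Matrix.of_apply, Matrix.single_apply]
    by_cases hl : l = q
    · subst hl
      simp [Ne.symm hk]
    · simp [hl]
  have e3 : Matrix.single q k (v j * x) * rm q v = 0 := by
    ext a b
    rw [Matrix.mul_apply]
    refine Finset.sum_eq_zero fun l _ => ?_
    simp only [rm, Matrix.of_apply, Matrix.single_apply]
    by_cases hl : l = q
    · subst hl
      simp [Ne.symm hk]
    · simp [hl]
  have e4 : Matrix.single q k (v j * x) * Matrix.single j k x = 0 :=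
    Matrix.single_mul_single_of_ne _ _ _ _ hjk.symm _
  simp only [mul_add, add_mul, mul_one, one_mul, e1, e2, e3, e4, add_zero, mul_zero]
  abel

variable {G : Type*} [Group G]

/-- from one pair of indices to all pairs -/
theorem all_pairs {Γ : Subgroup (Matrix (Fin n) (Fin n) R)ˣ}
    (hE : ∀ i j (h : i ≠ j) (x : R), El i j h x ∈ Γ) (α : Γ →* G) (hn : 3 ≤ n) {φ : R → R}
    {i j : Fin n} (hij : i ≠ j) (h : ∀ x, α ⟨El i j hij (φ x), hE _ _ _ _⟩ = 1) (k l : Fin n)
    (hkl : k ≠ l) (x : R) : α ⟨El k l hkl (φ x), hE _ _ _ _⟩ = 1 := by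
  -- change the column
  have h1 : ∀ {a b : Fin n} (hab : a ≠ b), (∀ x, α ⟨El a b hab (φ x), hE _ _ _ _⟩ = 1) →
      ∀ {c : Fin n} (hac : a ≠ c), b ≠ c → ∀ x, α ⟨El a c hac (φ x), hE _ _ _ _⟩ = 1 := by
    intro a b hab hh c hac hbc x
    have e := El_comm3 hab hbc hac (φ x) (1 : R)
    rw [mul_one] at e
    have e2 : (⟨El a b hab (φ x), hE _ _ _ _⟩ : Γ) * ⟨El b c hbc 1, hE _ _ _ _⟩ =
        ⟨El a c hac (φ x), hE _ _ _ _⟩ * (⟨El b c hbc 1, hE _ _ _ _⟩ *
          ⟨El a b hab (φ x), hE _ _ _ _⟩) := Subtype.ext e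
    have e3 := congrArg α e2
    simp only [map_mul, hh x, one_mul, mul_one] at e3
    exact (mul_eq_right.1 e3.symm)
  have h2 : ∀ {a b : Fin n} (hab : a ≠ b), (∀ x, α ⟨El a b hab (φ x), hE _ _ _ _⟩ = 1) →
      ∀ {c : Fin n} (hcb : c ≠ b), c ≠ a → ∀ x, α ⟨El c b hcb (φ x), hE _ _ _ _⟩ = 1 := by
    intro a b hab hh c hcb hca x
    have e := El_comm3 hca hab hcb (1 : R) (φ x)
    rw [one_mul] at e
    have e2 : (⟨El c a hca 1, hE _ _ _ _⟩ : Γ) * ⟨El a b hab (φ x), hE _ _ _ _⟩ =
        ⟨El c b hcb (φ x), hE _ _ _ _⟩ * (⟨El a b hab (φ x), hE _ _ _ _⟩ *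
          ⟨El c a hca 1, hE _ _ _ _⟩) := Subtype.ext e
    have e3 := congrArg α e2
    simp only [map_mul, hh x, one_mul, mul_one] at e3
    exact (mul_eq_right.1 e3.symm)
  have row : ∀ {a b : Fin n} (hab : a ≠ b), (∀ x, α ⟨El a b hab (φ x), hE _ _ _ _⟩ = 1) →
      ∀ {c : Fin n} (hac : a ≠ c), ∀ x, α ⟨El a c hac (φ x), hE _ _ _ _⟩ = 1 := by
    intro a b hab hh c hac
    rcases eq_or_ne b c with rfl | hbc
    · exact hh
    · exact h1 hab hh hac hbc
  have col : ∀ {a b : Fin n} (hab : a ≠ b), (∀ x, α ⟨El a b hab (φ x), hE _ _ _ _⟩ = 1) →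
      ∀ {c : Fin n} (hcb : c ≠ b), ∀ x, α ⟨El c b hcb (φ x), hE _ _ _ _⟩ = 1 := by
    intro a b hab hh c hcb
    rcases eq_or_ne c a with rfl | hca
    · exact hh
    · exact h2 hab hh hcb hca
  obtain ⟨m, hmi, hmk⟩ : ∃ m : Fin n, m ≠ i ∧ m ≠ k := by
    by_contra hcon
    push Not at hcon
    have h3 : (Finset.univ : Finset (Fin n)) ⊆ {i, k} := by
      intro m _
      by_cases hm : m = i
      · simp [hm]
      · simp [hcon m hm]
    have h4 := Finset.card_le_card h3
    rw [Finset.card_univ, Fintype.card_fin] at h4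
    have h5 := Finset.card_le_two (a := i) (b := k)
    omega
  exact row (hmk.symm) (col hmi.symm (row hij h hmi.symm) hmk.symm) hkl x

end ring

end Pool.Agent.X183.PZ
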