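import Pool.Agent.X183.PZ.Rows
import Pool.Agent.X183.PZ.Orbits
import Pool.Agent.X183.NZ.Steps

/-!
# Elementary groups over rings with `p`-th roots of unity
-/

set_option autoImplicit false

open scoped Manifold ContDiff Topology
open Module

namespace Pool.Agent.X183.PZ

open Pool.Agent.X183.ZM Pool.Agent.X183.NZ

section alg

variable {n p : ℕ} [hp : Fact p.Prime] {R : Type} [CommRing R] {ζ : Rˣ}

theorem zeta_pow (hζ : ∑ j ∈ Finset.range p, (ζ : R) ^ j = 0) : ζ ^ p = 1 := by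
  apply Units.ext
  rw [Units.val_pow_eq_pow_val, Units.val_one]
  have h := geom_sum_mul (ζ : R) p
  rw [hζ, zero_mul] at h
  exact (sub_eq_zero.1 h.symm)

/-- powers of `ζ` -/
def δ (ζ : Rˣ) (s : Fin n → ZMod p) : Fin n → Rˣ := fun i => ζ ^ (s i).val

theorem pow_val_add (h : ζ ^ p = 1) (a b : ZMod p) :
    ζ ^ (a + b).val = ζ ^ a.val * ζ ^ b.val := by
  rw [ZMod.val_add, ← pow_eq_pow_mod _ h, pow_add]

theorem δ_add (h : ζ ^ p = 1) (s t : Fin n → ZMod p) : δ ζ (s + t) = δ ζ s * δ ζ t := by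
  funext i
  exact pow_val_add h _ _

theorem δ_zero : δ ζ (0 : Fin n → ZMod p) = 1 := by
  funext i
  show ζ ^ (0 : ZMod p).val = 1
  rw [ZMod.val_zero, pow_zero]

theorem δ_single (i : Fin n) (t : ZMod p) :
    δ ζ (Pi.single i t : Fin n → ZMod p) = Pi.mulSingle i (ζ ^ t.val) := by
  funext j
  by_cases h : j = i
  · subst h
    rw [Pi.mulSingle_eq_same]
    show ζ ^ ((Pi.single j t : Fin n → ZMod p) j).val = _
    rw [Pi.single_eq_same]
  · rw [Pi.mulSingle_eq_of_ne h]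
    show ζ ^ ((Pi.single i t : Fin n → ZMod p) j).val = _
    rw [Pi.single_eq_of_ne h, ZMod.val_zero, pow_zero]

theorem δ_sub (h : ζ ^ p = 1) (s t : Fin n → ZMod p) : δ ζ (s - t) = δ ζ s * (δ ζ t)⁻¹ := by
  rw [eq_mul_inv_iff_mul_eq, ← δ_add h, sub_add_cancel]

/-- `1 - ζ ^ m` divides `p` -/
theorem dvd_p (hζ : ∑ j ∈ Finset.range p, (ζ : R) ^ j = 0) {m : ZMod p} (hm : m ≠ 0) :
    (1 - (ζ : R) ^ m.val) ∣ (p : R) := by
  have hz := zeta_pow hζ
  have h1 : ∑ j : ZMod p, (ζ : R) ^ j.val = 0 := by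
    obtain ⟨q, hq⟩ : ∃ q, p = q + 1 := ⟨p - 1, by have := hp.out.pos; omega⟩
    subst hq
    have := Fin.sum_univ_eq_sum_range (fun j => (ζ : R) ^ j) (q + 1)
    rw [hζ] at this
    exact this
  have h2 : ∑ j : ZMod p, ((ζ : R) ^ m.val) ^ j.val = 0 := by
    rw [← h1, ← Equiv.sum_comp (Equiv.mulLeft₀ m hm) fun j : ZMod p => (ζ : R) ^ j.val]
    refine Finset.sum_congr rfl fun j _ => ?_
    show ((ζ : R) ^ m.val) ^ j.val = (ζ : R) ^ (m * j).val
    have h3 : (ζ : R) ^ p = 1 := by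
      rw [← Units.val_pow_eq_pow_val, hz, Units.val_one]
    rw [ZMod.val_mul, ← pow_eq_pow_mod _ h3, pow_mul]
  have h3 : (p : R) = ∑ j : ZMod p, (1 - ((ζ : R) ^ m.val) ^ j.val) := by
    rw [Finset.sum_sub_distrib, h2, sub_zero, Finset.sum_const, Finset.card_univ, ZMod.card,
      nsmul_eq_mul, mul_one]
  rw [h3]
  refine Finset.dvd_sum fun j _ => ?_
  have h4 := sub_dvd_pow_sub_pow (1 : R) ((ζ : R) ^ m.val) j.val
  rwa [one_pow] at h4

/-- the vectors with vanishing sum -/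
def S0 (n p : ℕ) : Submodule (ZMod p) (Fin n → ZMod p) :=
  LinearMap.ker (∑ i : Fin n, (LinearMap.proj i : (Fin n → ZMod p) →ₗ[ZMod p] ZMod p))

theorem mem_S0 {s : Fin n → ZMod p} : s ∈ S0 n p ↔ ∑ i, s i = 0 := by
  unfold S0
  rw [LinearMap.mem_ker, LinearMap.sum_apply]
  rfl

theorem finrank_S0 : n ≤ finrank (ZMod p) (S0 n p) + 1 := by
  have h := LinearMap.finrank_range_add_finrank_ker
    (∑ i : Fin n, (LinearMap.proj i : (Fin n → ZMod p) →ₗ[ZMod p] ZMod p))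
  rw [Module.finrank_fin_fun] at h
  have h1 := Submodule.finrank_le (LinearMap.range
    (∑ i : Fin n, (LinearMap.proj i : (Fin n → ZMod p) →ₗ[ZMod p] ZMod p)))
  rw [Module.finrank_self] at h1
  unfold S0
  omega

theorem Dg_S0 (hζ : ζ ^ p = 1) {s : Fin n → ZMod p} (hs : s ∈ S0 n p) : Dg (δ ζ s) ∈ EG n R := by
  classical
  rcases Nat.eq_zero_or_pos n with rfl | hn
  · have : Dg (δ ζ s) = 1 := by
      apply Units.ext
      ext i
      exact i.elim0
    rw [this]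
    exact Subgroup.one_mem _
  set q : Fin n := ⟨0, hn⟩ with hq
  have key : ∀ S : Finset (Fin n),
      Dg (δ ζ (∑ i ∈ S, (Pi.single i (s i) - Pi.single q (s i) : Fin n → ZMod p))) ∈ EG n R := by
    intro S
    induction S using Finset.induction_on with
    | empty =>
      rw [Finset.sum_empty, δ_zero]
      have : Dg (1 : Fin n → Rˣ) = 1 := (DgHom n R).map_one
      rw [this]
      exact Subgroup.one_mem _
    | insert i S hi ih =>
      rw [Finset.sum_insert hi, δ_add hζ, Dg_mul]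
      refine Subgroup.mul_mem _ ?_ ih
      rw [δ_sub hζ, δ_single, δ_single]
      exact Dg_pe_mem (ζ ^ (s i).val) i q
  have h1 := key Finset.univ
  have h2 : ∑ i, (Pi.single i (s i) - Pi.single q (s i) : Fin n → ZMod p) = s := by
    rw [Finset.sum_sub_distrib, Finset.univ_sum_single]
    have h3 : ∑ i, (Pi.single q (s i) : Fin n → ZMod p) = 0 := by
      funext j
      rw [Finset.sum_apply]
      by_cases h : j = q
      · subst h
        simp only [Pi.single_eq_same]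
        exact mem_S0.1 hs
      · simp only [Pi.single_eq_of_ne h]
        exact Finset.sum_const_zero
    rw [h3, sub_zero]
  rwa [h2] at h1

theorem nonconstP {TT : Submodule (ZMod p) (Fin n → ZMod p)}
    (h : 2 ≤ finrank (ZMod p) TT) : ∃ S ∈ TT, ∃ a b, S a ≠ S b := by
  classical
  by_contra hcon
  push Not at hcon
  have h5 : TT ≤ Submodule.span (ZMod p) {(1 : Fin n → ZMod p)} := by
    intro S hS
    rw [Submodule.mem_span_singleton]
    rcases Nat.eq_zero_or_pos n with rfl | hn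
    · exact ⟨0, by funext i; exact i.elim0⟩
    · refine ⟨S ⟨0, hn⟩, ?_⟩
      funext b
      rw [Pi.smul_apply, Pi.one_apply, smul_eq_mul, mul_one]
      exact hcon S hS _ _
  have h5 := Submodule.finrank_mono h5
  have h6 := finrank_span_le_card (R := ZMod p) ({1} : Set (Fin n → ZMod p))
  simp only [Set.toFinset_singleton, Finset.card_singleton] at h6
  omega

theorem offq {TT : Submodule (ZMod p) (Fin n → ZMod p)} (q : Fin n)
    (h : 2 ≤ finrank (ZMod p) TT) : ∃ S ∈ TT, ∃ j, q ≠ j ∧ S j ≠ 0 := by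
  classical
  by_contra hcon
  push Not at hcon
  have h5 : TT ≤ Submodule.span (ZMod p) {(Pi.single q 1 : Fin n → ZMod p)} := by
    intro S hS
    rw [Submodule.mem_span_singleton]
    refine ⟨S q, ?_⟩
    funext b
    rw [Pi.smul_apply, smul_eq_mul]
    by_cases hb : b = q
    · subst hb
      rw [Pi.single_eq_same, mul_one]
    · rw [Pi.single_eq_of_ne hb, mul_zero, hcon S hS b (Ne.symm hb)]
  have h5 := Submodule.finrank_mono h5
  have h6 := finrank_span_le_card (R := ZMod p) ({Pi.single q 1} : Set (Fin n → ZMod p))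
  simp only [Set.toFinset_singleton, Finset.card_singleton] at h6
  omega

end alg

variable {n p k : ℕ} [hp : Fact p.Prime] {R : Type} [CommRing R] {ζ : Rˣ}
  {d : ℕ} {M : Type} [TopologicalSpace M]
  [T2Space M] [ConnectedSpace M] [ChartedSpace (EuclideanSpace ℝ (Fin d)) M]

/-- **First step.** -/
theorem step1 (hp2 : p ≠ 2) (hζ : ∑ j ∈ Finset.range p, (ζ : R) ^ j = 0) (hn : 3 ≤ n)
    {Γ : Subgroup (Matrix (Fin n) (Fin n) R)ˣ} (hΓ : EG n R ≤ Γ) (α : Γ →* Equiv.Perm M)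
    (hα : ∀ g, ContMDiff (𝓡 d) (𝓡 d) 1 (α g)) (hM : SmallP p k α.range)
    (hd : (d < 2 * (n - 1 - k) ∧ (¬ p ∣ n ∨ ∀ u : Fin n → Rˣ, Dg u ∈ Γ)) ∨
      d < 2 * (n - 2 - k)) (i j : Fin n) (hij : i ≠ j) (x : R) :
    α ⟨El i j hij ((p : R) * x), El_mem' hΓ _ _ _ _⟩ = 1 := by
  classical
  have hz := zeta_pow hζ
  -- the general step
  have gen : ∀ (A1 : Submodule (ZMod p) (Fin n → ZMod p)), (∀ s ∈ A1, Dg (δ ζ s) ∈ Γ) →
      ∃ (N : Submodule (ZMod p) (Fin n → ZMod p)) (c : ℕ), N ≤ A1 ∧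
        (∀ s ∈ N, ∃ h : Dg (δ ζ s) ∈ Γ, α ⟨Dg (δ ζ s), h⟩ = 1) ∧
        finrank (ZMod p) A1 ≤ finrank (ZMod p) N + k + c ∧ 2 * c ≤ d := by
    intro A1 hA1
    letI : Fintype A1 := Fintype.ofFinite _
    obtain ⟨N, c, h1, h2, h3⟩ := key (p := p) (k := k) (A := A1) hp2
      (fun s => α ⟨Dg (δ ζ (s : Fin n → ZMod p)), hA1 s s.2⟩)
      (by
        have e : (⟨Dg (δ ζ ((0 : A1) : Fin n → ZMod p)), hA1 _ (0 : A1).2⟩ : Γ) = 1 := by
          apply Subtype.ext
          show Dg (δ ζ (0 : Fin n → ZMod p)) = 1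
          rw [δ_zero]
          exact (DgHom n R).map_one
        rw [e, map_one])
      (by
        intro a b
        rw [← map_mul]
        congr 1
        apply Subtype.ext
        show Dg (δ ζ ((a : Fin n → ZMod p) + (b : Fin n → ZMod p))) =
          Dg (δ ζ (a : Fin n → ZMod p)) * Dg (δ ζ (b : Fin n → ZMod p))
        rw [δ_add hz, Dg_mul])
      (fun a => hα _) hM (fun a => ⟨_, rfl⟩)
    refine ⟨N.map A1.subtype, c, Submodule.map_subtype_le _ _, ?_, ?_, h3⟩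
    · intro s hs
      obtain ⟨s', hs', rfl⟩ := Submodule.mem_map.1 hs
      exact ⟨hA1 _ s'.2, h1 s' hs'⟩
    · rw [← LinearEquiv.finrank_eq (Submodule.equivMapOfInjective A1.subtype
        (Submodule.injective_subtype _) N)]
      exact h2
  -- a nonconstant vector
  obtain ⟨s, ⟨hsΓ, hs1⟩, a, b, hab⟩ : ∃ s : Fin n → ZMod p,
      (∃ h : Dg (δ ζ s) ∈ Γ, α ⟨Dg (δ ζ s), h⟩ = 1) ∧ ∃ a b, s a ≠ s b := by
    have hS0 : ∀ s ∈ S0 n p, Dg (δ ζ s) ∈ Γ := fun s hs => hΓ (Dg_S0 hz hs)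
    have hr := finrank_S0 (n := n) (p := p)
    rcases hd with ⟨hd, hpn | hu⟩ | hd
    · obtain ⟨N, c, h1, h2, h3, h4⟩ := gen (S0 n p) hS0
      have hN : N ≠ ⊥ := by
        rintro rfl
        rw [finrank_bot] at h3
        omega
      obtain ⟨s, hs, hs0⟩ := Submodule.exists_mem_ne_zero_of_ne_bot hN
      refine ⟨s, h2 s hs, ?_⟩
      by_contra hcon
      push Not at hcon
      apply hs0
      have hpos : 0 < n := by omega
      have h5 := mem_S0.1 (h1 hs)
      rw [Finset.sum_congr rfl fun i _ => hcon i ⟨0, hpos⟩, Finset.sum_const, Finset.card_univ,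
        Fintype.card_fin, nsmul_eq_mul] at h5
      have h6 : (n : ZMod p) ≠ 0 := by
        rw [Ne, ZMod.natCast_eq_zero_iff]
        exact hpn
      have h7 := (mul_eq_zero.1 h5).resolve_left h6
      funext i
      rw [hcon i ⟨0, hpos⟩, h7]
      rfl
    · obtain ⟨N, c, h1, h2, h3, h4⟩ := gen ⊤ fun s _ => hu _
      rw [finrank_top, Module.finrank_fin_fun] at h3
      obtain ⟨s, hs, hab⟩ := nonconstP (TT := N) (by omega)
      exact ⟨s, h2 s hs, hab⟩
    · obtain ⟨N, c, h1, h2, h3, h4⟩ := gen (S0 n p) hS0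
      obtain ⟨s, hs, hab⟩ := nonconstP (TT := N) (by omega)
      exact ⟨s, h2 s hs, hab⟩
  have hne : a ≠ b := by
    rintro rfl
    exact hab rfl
  set m : ZMod p := s a - s b with hm
  have hm0 : m ≠ 0 := sub_ne_zero.2 hab
  have hzm : δ ζ s a * (δ ζ s b)⁻¹ = ζ ^ m.val := by
    have h1 := congrFun (δ_sub (ζ := ζ) hz (fun _ : Fin n => s a) (fun _ => s b)) a
    exact h1.symm
  have hcj : ∀ y : R, α ⟨El a b hne (((ζ ^ m.val : Rˣ) : R) * y), El_mem' hΓ _ _ _ _⟩ =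
      α ⟨El a b hne y, El_mem' hΓ _ _ _ _⟩ := by
    intro y
    have e := Dg_El (δ ζ s) hne y
    have e1 : ((δ ζ s a : Rˣ) : R) * y * (((δ ζ s b)⁻¹ : Rˣ) : R) = ((ζ ^ m.val : Rˣ) : R) * y := by
      rw [← hzm, Units.val_mul]
      ring
    rw [e1] at e
    have e2 : (⟨Dg (δ ζ s), hsΓ⟩ : Γ) * ⟨El a b hne y, El_mem' hΓ _ _ _ _⟩ =
        ⟨El a b hne (((ζ ^ m.val : Rˣ) : R) * y), El_mem' hΓ _ _ _ _⟩ * ⟨Dg (δ ζ s), hsΓ⟩ :=
      Subtype.ext e
    have e3 := congrArg α e2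
    rw [map_mul, map_mul, hs1, one_mul, mul_one] at e3
    exact e3.symm
  refine all_pairs (El_mem' hΓ) α hn hne (φ := fun x => (p : R) * x) ?_ i j hij x
  intro y
  obtain ⟨r, hr⟩ := dvd_p hζ hm0
  have e0 : (p : R) * y = r * y + -(((ζ ^ m.val : Rˣ) : R) * (r * y)) := by
    rw [hr, Units.val_pow_eq_pow_val]
    ring
  have e1 : (⟨El a b hne ((p : R) * y), El_mem' hΓ _ _ _ _⟩ : Γ) =
      ⟨El a b hne (r * y), El_mem' hΓ _ _ _ _⟩ *
        ⟨El a b hne (-(((ζ ^ m.val : Rˣ) : R) * (r * y))), El_mem' hΓ _ _ _ _⟩ := by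
    apply Subtype.ext
    show El a b hne ((p : R) * y) = El a b hne _ * El a b hne _
    rw [← El_add, e0]
  have e2 : (⟨El a b hne (((ζ ^ m.val : Rˣ) : R) * (r * y)), El_mem' hΓ _ _ _ _⟩ : Γ) *
        ⟨El a b hne (-(((ζ ^ m.val : Rˣ) : R) * (r * y))), El_mem' hΓ _ _ _ _⟩ = 1 := by
    apply Subtype.ext
    show El a b hne _ * El a b hne _ = 1
    rw [← El_add, add_neg_cancel, El_zero]
  have e3 := congrArg α e2
  rw [map_mul, hcj, map_one] at e3
  rw [e1, map_mul]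
  exact e3

/-- **Second step.** -/
theorem step2 (hp2 : p ≠ 2) (hn : 3 ≤ n)
    {Γ : Subgroup (Matrix (Fin n) (Fin n) R)ˣ} (hΓ : EG n R ≤ Γ) (α : Γ →* Equiv.Perm M)
    (hα : ∀ g, ContMDiff (𝓡 d) (𝓡 d) 1 (α g)) (hM : SmallP p k α.range)
    (hd : d < 2 * (n - 1 - k)) (hpx : ∀ (i j : Fin n) (hij : i ≠ j) (x : R),
      α ⟨El i j hij ((p : R) * x), El_mem' hΓ _ _ _ _⟩ = 1) (i j : Fin n) (hij : i ≠ j) (x : R) :
    α ⟨El i j hij x, El_mem' hΓ _ _ _ _⟩ = 1 := by
  classical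
  set q : Fin n := ⟨0, by omega⟩ with hq
  set φ : (Fin n → R) → Equiv.Perm M := fun v => α ⟨Rw q v, hΓ (Rw_mem q v)⟩ with hφ
  have hφ0 : φ 0 = 1 := by
    have e : (⟨Rw q (0 : Fin n → R), hΓ (Rw_mem q 0)⟩ : Γ) = 1 := Subtype.ext (Rw_zero q)
    simp only [hφ]
    rw [e, map_one]
  have hφa : ∀ v w, φ (v + w) = φ v * φ w := by
    intro v w
    simp only [hφ]
    rw [← map_mul]
    congr 1
    exact Subtype.ext (Rw_add q v w)
  have hφp : ∀ t : Fin n → R, φ (fun l => (p : R) * t l) = 1 := by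
    intro t
    have h1 : φ (fun l => (p : R) * t l) ∈ (⊥ : Subgroup (Equiv.Perm M)) := by
      refine Rw_induct (q := q) φ hφ0 hφa _ fun l => ?_
      rw [Subgroup.mem_bot]
      by_cases h : q = l
      · have e : (⟨Rw q (Pi.single l ((p : R) * t l)), hΓ (Rw_mem q _)⟩ : Γ) = 1 := by
          apply Subtype.ext
          show Rw q (Pi.single l ((p : R) * t l)) = 1
          rw [← h]
          exact Rw_single_self q _
        simp only [hφ]
        rw [e, map_one]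
      · have e : (⟨Rw q (Pi.single l ((p : R) * t l)), hΓ (Rw_mem q _)⟩ : Γ) =
            ⟨El q l h ((p : R) * t l), El_mem' hΓ _ _ _ _⟩ := Subtype.ext (Rw_single h _)
        simp only [hφ]
        rw [e, hpx]
    exact Subgroup.mem_bot.1 h1
  set lf : (Fin n → ZMod p) → (Fin n → R) := fun v l => ((v l).val : R) with hlf
  obtain ⟨N, c, h1, h2, h3⟩ := key (p := p) (k := k) (A := Fin n → ZMod p) hp2
    (fun v => φ (lf v))
    (by
      have e : lf 0 = 0 := by
        funext l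
        show (((0 : ZMod p).val : ℕ) : R) = 0
        rw [ZMod.val_zero, Nat.cast_zero]
      rw [e, hφ0])
    (by
      intro v w
      have e : lf v + lf w = lf (v + w) +
          fun l => (p : R) * ((((v l).val + (w l).val) / p : ℕ) : R) := by
        funext l
        show ((v l).val : R) + ((w l).val : R) = ((v l + w l).val : R) +
          (p : R) * ((((v l).val + (w l).val) / p : ℕ) : R)
        rw [ZMod.val_add, ← Nat.cast_add, ← Nat.cast_mul, ← Nat.cast_add, Nat.mod_add_div]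
      rw [← hφa, e, hφa (lf (v + w)), hφp, mul_one])
    (fun v => hα _) hM (fun v => ⟨_, rfl⟩)
  rw [Module.finrank_fin_fun] at h2
  obtain ⟨v, hv, l, hql, hvl⟩ := offq q (TT := N) (by omega)
  have hv1 : φ (lf v) = 1 := h1 v hv
  obtain ⟨m, hml, hmq⟩ : ∃ m : Fin n, m ≠ l ∧ m ≠ q := by
    by_contra hcon
    push Not at hcon
    have h3 : (Finset.univ : Finset (Fin n)) ⊆ {l, q} := by
      intro m _
      by_cases hm : m = l
      · simp [hm]
      · simp [hcon m hm]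
    have h4 := Finset.card_le_card h3
    rw [Finset.card_univ, Fintype.card_fin] at h4
    have h5 := Finset.card_le_two (a := l) (b := q)
    omega
  have hA : ∀ x : R, α ⟨El q m hmq.symm (((v l).val : R) * x), El_mem' hΓ _ _ _ _⟩ = 1 := by
    intro x
    have e := Rw_El q (lf v) hml.symm hql hmq.symm x
    have e2 : (⟨Rw q (lf v), hΓ (Rw_mem q _)⟩ : Γ) * ⟨El l m hml.symm x, El_mem' hΓ _ _ _ _⟩ =
        ⟨El q m hmq.symm (((v l).val : R) * x), El_mem' hΓ _ _ _ _⟩ *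
          (⟨El l m hml.symm x, El_mem' hΓ _ _ _ _⟩ * ⟨Rw q (lf v), hΓ (Rw_mem q _)⟩) :=
      Subtype.ext e
    have e3 := congrArg α e2
    have hv1' : α ⟨Rw q (lf v), hΓ (Rw_mem q _)⟩ = 1 := hv1
    simp only [map_mul, hv1', one_mul, mul_one] at e3
    exact (mul_eq_right.1 e3.symm)
  refine all_pairs (El_mem' hΓ) α hn hmq.symm (φ := fun x => x) ?_ i j hij x
  intro y
  set r := (v l).val with hr
  set r' := ((v l)⁻¹).val with hr'
  have hrr : (r * r') % p = 1 := by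
    have h4 : (((r * r' : ℕ)) : ZMod p) = ((1 : ℕ) : ZMod p) := by
      rw [Nat.cast_mul, hr, hr', ZMod.natCast_zmod_val, ZMod.natCast_zmod_val, Nat.cast_one]
      exact mul_inv_cancel₀ hvl
    have h5 := (ZMod.natCast_eq_natCast_iff' _ _ _).1 h4
    rw [h5, Nat.mod_eq_of_lt hp.out.one_lt]
  have e0 : (r : R) * ((r' : R) * y) = y + (p : R) * (((r * r' / p : ℕ) : R) * y) := by
    have h6 : (((r * r' : ℕ)) : R) = 1 + (p : R) * ((r * r' / p : ℕ) : R) := by
      conv_lhs => rw [← Nat.mod_add_div (r * r') p, hrr]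
      push_cast
      ring
    rw [← mul_assoc, ← Nat.cast_mul, h6]
    ring
  have e1 : (⟨El q m hmq.symm ((r : R) * ((r' : R) * y)), El_mem' hΓ _ _ _ _⟩ : Γ) =
      ⟨El q m hmq.symm y, El_mem' hΓ _ _ _ _⟩ *
        ⟨El q m hmq.symm ((p : R) * (((r * r' / p : ℕ) : R) * y)), El_mem' hΓ _ _ _ _⟩ := by
    apply Subtype.ext
    show El q m hmq.symm _ = El q m hmq.symm _ * El q m hmq.symm _
    rw [← El_add, e0]
  have e2 := hA ((r' : R) * y)
  rw [e1, map_mul, hpx, mul_one] at e2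
  exact e2

/-- The action `α` is `C^1` and every finite `p`-subgroup of `α(Γ)` has an orbit with at most `p ^ k`
points, or `α` is `C^∞` and `M` is a closed manifold on which the signed number of critical points of
every Morse function (the Euler characteristic) is not divisible by `p ^ (k + 1)`. -/
def AdmP (p k d : ℕ) {Γ M : Type} [Group Γ] [TopologicalSpace M]
    [ChartedSpace (EuclideanSpace ℝ (Fin d)) M] (α : Γ →* Equiv.Perm M) : Prop :=
  ((∀ g, ContMDiff (𝓡 d) (𝓡 d) 1 (α g)) ∧ SmallP p k α.range) ∨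
    ((∀ g, ContMDiff (𝓡 d) (𝓡 d) ∞ (α g)) ∧ CompactSpace M ∧ IsManifold (𝓡 d) ∞ M ∧
      EulerNotDvd d M ((p : ℤ) ^ (k + 1)))

/-- **Final theorem.** -/
theorem final (hp2 : p ≠ 2) (hζ : ∑ j ∈ Finset.range p, (ζ : R) ^ j = 0) (hn : 3 ≤ n)
    {Γ : Subgroup (Matrix (Fin n) (Fin n) R)ˣ} (hΓ : EG n R ≤ Γ) {α : Γ →* Equiv.Perm M}
    (hα : AdmP p k d α) (hd : (d < 2 * (n - 1 - k) ∧ (¬ p ∣ n ∨ ∀ u : Fin n → Rˣ, Dg u ∈ Γ)) ∨
      d < 2 * (n - 2 - k)) :
    (∀ g (hg : g ∈ EG n R), α ⟨g, hΓ hg⟩ = 1) ∧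
      ((EG n R).relIndex Γ ≠ 0 → (Set.range α).Finite) := by
  have h : (∀ g, ContMDiff (𝓡 d) (𝓡 d) 1 (α g)) ∧ SmallP p k α.range := by
    rcases hα with h | ⟨h1, h2, h3, h4⟩
    · exact h
    · refine ⟨fun g => (h1 g).of_le (by simp), ?_⟩
      refine small_of_euler (n := d) α.range ?_ h4
      rintro _ ⟨g, rfl⟩
      exact h1 g
  have h1 := step1 hp2 hζ hn hΓ α h.1 h.2 hd
  have h2 := step2 hp2 hn hΓ α h.1 h.2 (by rcases hd with hd | hd <;> omega) h1
  have h3 := EG_trivial hΓ α h2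
  exact ⟨h3, finite_image' hΓ α h3⟩

end Pool.Agent.X183.PZ
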